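import Pool.Agent.P.MP_d1c5a4_lc.NS.Main2

/-! No level of the W-hierarchy contains the next one when fpt-reductions are replaced by circuits
of size `f(k) (n + 1) ^ c`, of any depth, with at most `θ log₂ (n + 1) + O(1)` NOT gates, `θ < 1`,
for infinitely many parameters `k`. The upper level may have any bound `R'` on the NOT gates, for
example `R` or `0`. -/

namespace Pool.Agent.Results.MP_d1c5a4_lc.NearlyLogNeg

open Pool.Agent.P.MP_d1c5a4_lc.NL Pool.Agent.P.MP_d1c5a4_lc.NS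

theorem result (R R' : ℕ → ℕ → ℕ)
    (hR : ∀ k₀, ∃ k ≥ k₀, ∃ θ A : ℝ, θ < 1 ∧
      ∀ n : ℕ, (R k n : ℝ) ≤ θ * Real.logb 2 ((n : ℝ) + 1) + A) (t : ℕ) (ht : 1 ≤ t) :
    ¬ WN R' (t + 1) ⊆ WN R t := by
  obtain ⟨j, rfl⟩ := Nat.exists_eq_add_of_le' ht
  obtain ⟨L, h1, h2⟩ := sep2 (Filter.frequently_atTop.2 hR) j
  exact fun h => h2 (h (wn_zero R' _ h1))

end Pool.Agent.Results.MP_d1c5a4_lc.NearlyLogNeg
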