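import Pool.Agent.P.MP_d1c5a4_lc.Main

/-! The W-hierarchy is strict when fpt-reductions are replaced by reductions computed by
circuits of depth `f(k)` and size `f(k) (n + 1) ^ c`. -/

namespace Pool.Agent.Results.MP_d1c5a4_lc.StrictAC

open Pool.Agent.P.MP_d1c5a4_lc

theorem result (t : ℕ) (ht : 1 ≤ t) : WAC t ⊂ WAC (t + 1) := by
  obtain ⟨j, rfl⟩ := Nat.exists_eq_add_of_le' ht
  exact ⟨fun _ ⟨h, a⟩ => ⟨h, red_up a⟩, fun h =>
    let ⟨H, a⟩ := h ⟨2 * j + 2, red_refl _⟩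
    hard j H a⟩

end Pool.Agent.Results.MP_d1c5a4_lc.StrictAC
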